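import Pool.Agent.Lib.MP_100a6c_lc.IfaceB

/-!
# Skolem functions: elementary substructures of `H` in `V^B`
-/

universe u

open scoped symmDiff
open Cardinal

namespace Pool.Agent.Lib.MP_100a6c_lc.H67

open BName

/-- Untyped formulas. -/
inductive UF : Type
  | mem (i j : ℕ)
  | eq (i j : ℕ)
  | fls
  | imp (a b : UF)
  | all (a : UF)
  deriving Countable

/-- Forget the number of free variables. -/
def toUF : {n : ℕ} → Fml n → UF
  | _, .mem i j => .mem i j
  | _, .eq i j => .eq i j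
  | _, .fls => .fls
  | _, .imp φ ψ => .imp (toUF φ) (toUF ψ)
  | _, .all φ => .all (toUF φ)

theorem toUF_injective {n : ℕ} : Function.Injective (toUF (n := n)) := by
  intro φ
  induction φ with
  | mem i j =>
    intro ψ h
    cases ψ <;> simp only [toUF, UF.mem.injEq, reduceCtorEq] at h
    obtain ⟨h1, h2⟩ := h
    rw [Fin.ext h1, Fin.ext h2]
  | eq i j =>
    intro ψ h
    cases ψ <;> simp only [toUF, UF.eq.injEq, reduceCtorEq] at h
    obtain ⟨h1, h2⟩ := h
    rw [Fin.ext h1, Fin.ext h2]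
  | fls =>
    intro ψ h
    cases ψ <;> simp only [toUF, reduceCtorEq] at h
    rfl
  | imp a b iha ihb =>
    intro ψ h
    cases ψ <;> simp only [toUF, UF.imp.injEq, reduceCtorEq] at h
    obtain ⟨h1, h2⟩ := h
    rw [iha h1, ihb h2]
  | all a iha =>
    intro ψ h
    cases ψ <;> simp only [toUF, UF.all.injEq, reduceCtorEq] at h
    rw [iha h]

instance countable_fml (n : ℕ) : Countable (Fml n) := toUF_injective.countable

variable {B : Type u} [CompleteBooleanAlgebra B]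

/-- Finite meets distribute over joins. -/
theorem iInf_iSup_le {J : Type*} : ∀ {n : ℕ} (c : Fin n → J → B),
    (⨅ i, ⨆ j, c i j) ≤ ⨆ f : Fin n → J, ⨅ i, c i (f i)
  | 0, c => le_iSup_of_le (fun i => i.elim0) (le_iInf fun i => i.elim0)
  | n + 1, c => by
    have h1 : (⨅ i, ⨆ j, c i j) ≤ (⨆ j, c 0 j) ⊓ ⨆ f : Fin n → J, ⨅ i, c i.succ (f i) :=
      le_inf (iInf_le _ 0) ((le_iInf fun i : Fin n => iInf_le _ i.succ).trans
        (iInf_iSup_le fun i : Fin n => c i.succ))
    refine h1.trans ?_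
    rw [iSup_inf_iSup]
    refine iSup_le fun ⟨j, f⟩ => le_iSup_of_le (Fin.cons j f) (le_iInf fun i => ?_)
    refine Fin.cases ?_ (fun i => ?_) i
    · simp
    · simpa using inf_le_right.trans (iInf_le _ i)

/-- Skolem witnesses. -/
theorem exists_witness {Γ : B} {H : BName B} {I : Type u} [Nonempty I] {A : I → BName B}
    (hA : Rep Γ H A) {n : ℕ} (φ : Fml (n + 1)) (v : Fin n → BName B) :
    ∃ w : I, Γ ⊓ (VB B).sat H φ (Fin.cons (A w) v) ≤
      ⨅ x, (VB B).mem x H ⇨ (VB B).sat H φ (Fin.cons x v) := by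
  have hs : Ext (fun x : BName B => (VB B).sat H φ (Fin.cons x v)) := ext_sat_cons H φ v
  have hP : Ext (fun x : BName B => bmem x H ⊓ ((VB B).sat H φ (Fin.cons x v))ᶜ) :=
    (ext_mem_left H).inf hs.compl
  obtain ⟨τ, hτ⟩ := exists_max hP
  obtain ⟨i, hi⟩ := hA.loc (Classical.arbitrary I)
    (Δ := Γ ⊓ (bmem τ H ⊓ ((VB B).sat H φ (Fin.cons τ v))ᶜ)) inf_le_left
    (inf_le_right.trans inf_le_left)
  refine ⟨i, le_iInf fun x => ?_⟩
  have h1 : Γ ⊓ (bmem τ H ⊓ ((VB B).sat H φ (Fin.cons τ v))ᶜ) ≤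
      ((VB B).sat H φ (Fin.cons (A i) v))ᶜ :=
    hs.compl.of_le (x := τ) hi (inf_le_right.trans inf_le_right)
  rw [← hτ] at h1
  rw [le_himp_iff]
  have h2 : Γ ⊓ (VB B).sat H φ (Fin.cons (A i) v) ⊓ (VB B).mem x H ⊓
      ((VB B).sat H φ (Fin.cons x v))ᶜ ≤ ⊥ := by
    have h3 : Γ ⊓ (VB B).sat H φ (Fin.cons (A i) v) ⊓ (VB B).mem x H ⊓
      ((VB B).sat H φ (Fin.cons x v))ᶜ ≤ ((VB B).sat H φ (Fin.cons (A i) v))ᶜ := by
      refine le_trans (le_inf ?_ ?_) h1
      · exact (inf_le_left.trans inf_le_left).trans inf_le_left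
      · refine le_iSup_of_le x (le_inf ?_ inf_le_right)
        exact inf_le_left.trans inf_le_right
    have h4 : Γ ⊓ (VB B).sat H φ (Fin.cons (A i) v) ⊓ (VB B).mem x H ⊓
      ((VB B).sat H φ (Fin.cons x v))ᶜ ≤ (VB B).sat H φ (Fin.cons (A i) v) :=
      (inf_le_left.trans inf_le_left).trans inf_le_right
    exact (le_inf h4 h3).trans (by rw [inf_compl_self])
  rw [← sdiff_eq, sdiff_le_iff, sup_bot_eq] at h2
  exact h2

theorem elem_aux {Γ : B} {H : BName B} {I : Type u} {A : I → BName B}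
    (hA : Rep Γ H A) {J : Set I}
    (hJ : ∀ (n : ℕ) (φ : Fml (n + 1)) (v : Fin n → J), ∃ w : J,
      Γ ⊓ (VB B).sat H φ (Fin.cons (A w) fun k => A (v k)) ≤
        ⨅ x, (VB B).mem x H ⇨ (VB B).sat H φ (Fin.cons x fun k => A (v k))) :
    ∀ {n : ℕ} (φ : Fml n) (v : Fin n → J),
      Γ ⊓ (VB B).sat (nameJ A J) φ (fun k => A (v k)) = Γ ⊓ (VB B).sat H φ (fun k => A (v k)) := by
  intro n φ
  induction φ with
  | mem i j => intro v; rfl
  | eq i j => intro v; rfl
  | fls => intro v; rfl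
  | imp φ ψ ih1 ih2 =>
    intro v
    change Γ ⊓ ((VB B).sat (nameJ A J) φ _ ⇨ (VB B).sat (nameJ A J) ψ _) =
      Γ ⊓ ((VB B).sat H φ _ ⇨ (VB B).sat H ψ _)
    have key : ∀ a b a' b' : B, Γ ⊓ a = Γ ⊓ a' → Γ ⊓ b = Γ ⊓ b' → Γ ⊓ (a ⇨ b) ≤ Γ ⊓ (a' ⇨ b') := by
      intro a b a' b' ha hb
      refine le_inf inf_le_left ?_
      rw [le_himp_iff]
      have h1 : Γ ⊓ (a ⇨ b) ⊓ a' ≤ Γ ⊓ a := by
        rw [ha]; exact le_inf (inf_le_left.trans inf_le_left) inf_le_right
      have h2 : Γ ⊓ (a ⇨ b) ⊓ a' ≤ b :=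
        le_trans (le_inf (inf_le_left.trans inf_le_right) (h1.trans inf_le_right)) himp_inf_le
      have h3 : Γ ⊓ (a ⇨ b) ⊓ a' ≤ Γ ⊓ b := le_inf (inf_le_left.trans inf_le_left) h2
      rw [hb] at h3
      exact h3.trans inf_le_right
    exact le_antisymm (key _ _ _ _ (ih1 v) (ih2 v)) (key _ _ _ _ (ih1 v).symm (ih2 v).symm)
  | @all n φ ih =>
    intro v
    have e1 : (VB B).sat (nameJ A J) φ.all (fun k => A (v k)) =
        ⨅ j : J, (VB B).sat (nameJ A J) φ (Fin.cons (A j) fun k => A (v k)) :=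
      iInf_nameJ A J (ext_sat_cons _ _ _)
    have e2 : ∀ j : J, Γ ⊓ (VB B).sat (nameJ A J) φ (Fin.cons (A j) fun k => A (v k)) =
        Γ ⊓ (VB B).sat H φ (Fin.cons (A j) fun k => A (v k)) := by
      intro j
      have e3 : (Fin.cons (A j) fun k => A (v k) : Fin (n + 1) → BName B) =
          fun k => A ((Fin.cons j v : Fin (n + 1) → J) k) := by
        funext k
        refine Fin.cases ?_ (fun k => ?_) k <;> simp
      rw [e3]
      exact ih (Fin.cons j v)
    rw [e1]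
    change _ = Γ ⊓ ⨅ x, (VB B).mem x H ⇨ (VB B).sat H φ (Fin.cons x fun k => A (v k))
    refine le_antisymm (le_inf inf_le_left ?_) (le_inf inf_le_left (le_iInf fun j => ?_))
    · obtain ⟨w, hw⟩ := hJ n φ v
      refine le_trans ?_ hw
      rw [← e2 w]
      exact inf_le_inf_left _ (iInf_le _ w)
    · have h1 : Γ ⊓ (⨅ x, (VB B).mem x H ⇨ (VB B).sat H φ (Fin.cons x fun k => A (v k))) ≤
          Γ ⊓ (VB B).sat H φ (Fin.cons (A j) fun k => A (v k)) := by
        refine le_inf inf_le_left ?_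
        refine le_trans (le_inf (inf_le_right.trans (iInf_le _ (A j))) ?_) himp_inf_le
        exact inf_le_left.trans (hA.mem j)
      rw [← e2 j] at h1
      exact h1.trans inf_le_right

theorem elemStatement : ElemStatement.{u} := by
  intro B _ Γ H I _ A hA
  classical
  choose w hw using fun (n : ℕ) (φ : Fml (n + 1)) (v : Fin n → I) =>
    exists_witness hA φ (fun k => A (v k))
  refine ⟨fun l => {i | ∃ (n : ℕ) (h : l.length = n) (φ : Fml (n + 1)),
    i = w n φ (fun k => l.get (k.cast h.symm))}, fun l => ?_, fun J hJ => ?_⟩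
  · have h1 : {i | ∃ (n : ℕ) (h : l.length = n) (φ : Fml (n + 1)),
        i = w n φ (fun k => l.get (k.cast h.symm))} ⊆
        Set.range (fun φ : Fml (l.length + 1) => w l.length φ l.get) := by
      rintro i ⟨n, rfl, φ, rfl⟩
      exact ⟨φ, rfl⟩
    exact (Cardinal.mk_le_mk_of_subset h1).trans
      (Cardinal.mk_le_aleph0_iff.2 (Set.countable_range _).to_subtype)
  · have hJ' : ∀ (n : ℕ) (φ : Fml (n + 1)) (v : Fin n → J), ∃ w : J,
        Γ ⊓ (VB B).sat H φ (Fin.cons (A w) fun k => A (v k)) ≤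
          ⨅ x, (VB B).mem x H ⇨ (VB B).sat H φ (Fin.cons x fun k => A (v k)) := by
      intro n φ v
      have hmem : w n φ (fun k => (v k : I)) ∈ J := by
        refine hJ (List.ofFn fun k => (v k : I)) ?_ ⟨n, List.length_ofFn, φ, ?_⟩
        · intro i hi
          rw [List.mem_ofFn] at hi
          obtain ⟨k, rfl⟩ := hi
          exact (v k).2
        · congr 1
          funext k
          simp
      exact ⟨⟨_, hmem⟩, hw n φ fun k => (v k : I)⟩
    have key := @elem_aux B _ Γ H I A hA J hJ'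
    refine le_inf (hA.nameJ_sub J) (le_iInf fun n => le_iInf fun φ => le_iInf fun v => ?_)
    rw [le_himp_iff]
    have h1 : (⨅ i, (VB B).mem (v i) (nameJ A J)) ≤ ⨆ f : Fin n → J, ⨅ i, beq (v i) (A (f i)) := by
      refine le_trans (le_of_eq ?_) (iInf_iSup_le fun (i : Fin n) (j : J) => beq (v i) (A j))
      exact iInf_congr fun i => mem_nameJ A J (v i)
    refine (inf_le_inf_left _ h1).trans ?_
    rw [inf_iSup_eq]
    refine iSup_le fun f => ?_
    have hf : (⨅ i, beq (v i) (A (f i))) ≤ ⨅ i, beq (A (f i)) (v i) :=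
      iInf_mono fun i => (beq_symm _ _).le
    have main : ∀ X Y : BName B, Γ ⊓ (VB B).sat X φ (fun k => A (f k)) =
        Γ ⊓ (VB B).sat Y φ (fun k => A (f k)) →
        Γ ⊓ (⨅ i, beq (v i) (A (f i))) ⊓ (VB B).sat X φ v ≤ (VB B).sat Y φ v := by
      intro X Y hXY
      have h2 : Γ ⊓ (⨅ i, beq (v i) (A (f i))) ⊓ (VB B).sat X φ v ≤
          (VB B).sat X φ (fun k => A (f k)) :=
        le_trans (le_inf (inf_le_left.trans inf_le_right) inf_le_right)
          (sat_congr X φ v fun k => A (f k))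
      have h3 : Γ ⊓ (⨅ i, beq (v i) (A (f i))) ⊓ (VB B).sat X φ v ≤
          Γ ⊓ (VB B).sat X φ (fun k => A (f k)) :=
        le_inf (inf_le_left.trans inf_le_left) h2
      rw [hXY] at h3
      refine le_trans (le_inf ?_ (h3.trans inf_le_right)) (sat_congr Y φ (fun k => A (f k)) v)
      exact (inf_le_left.trans inf_le_right).trans hf
    refine le_inf ?_ ?_
    · rw [le_himp_iff]
      exact main H (nameJ A J) (key φ f).symm
    · rw [le_himp_iff]
      exact main (nameJ A J) H (key φ f)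

end Pool.Agent.Lib.MP_100a6c_lc.H67
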